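import Pool.Agent.helper12.DD.Spec

/-!
# Project dd: module PO1
-/

set_option autoImplicit false

open Pool.Agent.helper49.Blk

namespace Pool.Agent.DD

/-- the sum of the squares of the coefficients -/
theorem PO1_sq (P : Polynomial ℤ) (h0 : P ≠ 0)
    (h : ∀ a : ℕ, P ≠ Polynomial.X ^ a ∧ P ≠ -Polynomial.X ^ a) :
    2 ≤ ∑ i ∈ Finset.range (P.natDegree + 1), (P.coeff i) ^ 2 := by
  have hc : P.coeff P.natDegree ≠ 0 := by
    rw [Polynomial.coeff_natDegree]; exact Polynomial.leadingCoeff_ne_zero.2 h0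
  have hmem : P.natDegree ∈ Finset.range (P.natDegree + 1) := Finset.self_mem_range_succ _
  have hsingle : ∀ i ∈ Finset.range (P.natDegree + 1),
      (P.coeff i) ^ 2 ≤ ∑ i ∈ Finset.range (P.natDegree + 1), (P.coeff i) ^ 2 := by
    intro i hi
    exact Finset.single_le_sum (f := fun i => (P.coeff i) ^ 2) (fun j _ => sq_nonneg _) hi
  by_cases h1 : |P.coeff P.natDegree| = 1
  · have h2 : ∃ i ∈ Finset.range (P.natDegree + 1), i ≠ P.natDegree ∧ P.coeff i ≠ 0 := by
      by_contra hn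
      push Not at hn
      have hP : P = Polynomial.C (P.coeff P.natDegree) * Polynomial.X ^ P.natDegree := by
        ext j
        rw [Polynomial.coeff_C_mul, Polynomial.coeff_X_pow]
        split_ifs with hj
        · rw [hj, mul_one]
        · rw [mul_zero]
          by_cases hj2 : j ∈ Finset.range (P.natDegree + 1)
          · exact hn j hj2 hj
          · rw [Finset.mem_range, not_lt] at hj2
            exact Polynomial.coeff_eq_zero_of_natDegree_lt (by omega)
      rcases (abs_eq (by norm_num : (0 : ℤ) ≤ 1)).1 h1 with h3 | h3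
      · rw [h3, Polynomial.C_1, one_mul] at hP
        exact (h P.natDegree).1 hP
      · rw [h3] at hP
        apply (h P.natDegree).2
        rw [hP]
        simp
    obtain ⟨i, hi, hne, hci⟩ := h2
    have h3 : (P.coeff i) ^ 2 + (P.coeff P.natDegree) ^ 2 ≤
        ∑ i ∈ Finset.range (P.natDegree + 1), (P.coeff i) ^ 2 := by
      have := Finset.sum_le_sum_of_subset_of_nonneg (s := {i, P.natDegree})
        (t := Finset.range (P.natDegree + 1)) (f := fun i => (P.coeff i) ^ 2) (by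
          intro x hx
          rw [Finset.mem_insert, Finset.mem_singleton] at hx
          rcases hx with rfl | rfl
          · exact hi
          · exact hmem) (fun j _ _ => sq_nonneg _)
      rwa [Finset.sum_pair hne] at this
    have h4 : 1 ≤ (P.coeff i) ^ 2 := by
      have := sq_pos_of_ne_zero hci
      omega
    have h5 : 1 ≤ (P.coeff P.natDegree) ^ 2 := by
      have := sq_pos_of_ne_zero hc
      omega
    linarith
  · have h2 : 2 ≤ |P.coeff P.natDegree| := by
      have := abs_pos.2 hc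
      omega
    have h3 := hsingle _ hmem
    have h4 : (P.coeff P.natDegree) ^ 2 = |P.coeff P.natDegree| ^ 2 := (sq_abs _).symm
    nlinarith

/-- some root of unity with a large value -/
theorem PO1_root (P : Polynomial ℤ) (h0 : P ≠ 0)
    (h : ∀ a : ℕ, P ≠ Polynomial.X ^ a ∧ P ≠ -Polynomial.X ^ a) :
    ∃ z : ℂ, ‖z‖ = 1 ∧ 2 ≤ ‖Polynomial.aeval z P‖ ^ 2 := by
  set n := P.natDegree + 1 with hn
  have hn0 : n ≠ 0 := by omega
  obtain ⟨ζ, hζ⟩ : ∃ ζ : ℂ, IsPrimitiveRoot ζ n := ⟨_, Complex.isPrimitiveRoot_exp n hn0⟩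
  have hζ1 : ‖ζ‖ = 1 := hζ.norm'_eq_one hn0
  have hζn : ζ ^ n = 1 := hζ.pow_eq_one
  have hconj : (starRingEnd ℂ) ζ * ζ = 1 := by
    rw [mul_comm, Complex.mul_conj, Complex.normSq_eq_norm_sq, hζ1]; simp
  -- Parseval
  have hpar : ∑ k ∈ Finset.range n, ((‖Polynomial.aeval (ζ ^ k) P‖ ^ 2 : ℝ) : ℂ) =
      ((n * ∑ i ∈ Finset.range n, (P.coeff i) ^ 2 : ℤ) : ℂ) := by
    have e1 : ∀ k, ((‖Polynomial.aeval (ζ ^ k) P‖ ^ 2 : ℝ) : ℂ) =
        ∑ i ∈ Finset.range n, ∑ j ∈ Finset.range n,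
          (P.coeff i : ℂ) * (P.coeff j : ℂ) * (ζ ^ i * ((starRingEnd ℂ) ζ) ^ j) ^ k := by
      intro k
      rw [← Complex.normSq_eq_norm_sq, ← Complex.mul_conj, Polynomial.aeval_eq_sum_range' (n := n) (by omega),
        map_sum, Finset.sum_mul_sum]
      refine Finset.sum_congr rfl fun i _ => Finset.sum_congr rfl fun j _ => ?_
      simp only [zsmul_eq_mul, map_mul, map_pow, map_intCast]
      rw [mul_pow]
      have e2 : (ζ ^ k) ^ i = (ζ ^ i) ^ k := by rw [← pow_mul, ← pow_mul, mul_comm]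
      have e3 : (((starRingEnd ℂ) ζ) ^ k) ^ j = (((starRingEnd ℂ) ζ) ^ j) ^ k := by
        rw [← pow_mul, ← pow_mul, mul_comm]
      rw [e2, e3]
      ring
    have e2 : ∀ i ∈ Finset.range n, ∀ j ∈ Finset.range n,
        ∑ k ∈ Finset.range n, (ζ ^ i * ((starRingEnd ℂ) ζ) ^ j) ^ k = if i = j then (n : ℂ) else 0 := by
      intro i hi j hj
      split_ifs with hij
      · rw [hij]
        have : ζ ^ j * ((starRingEnd ℂ) ζ) ^ j = 1 := by
          rw [← mul_pow, mul_comm ζ, hconj, one_pow]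
        rw [this]
        simp
      · set w := ζ ^ i * ((starRingEnd ℂ) ζ) ^ j with hw
        have hw1 : w ≠ 1 := by
          intro h1
          apply hij
          apply hζ.pow_inj (Finset.mem_range.1 hi) (Finset.mem_range.1 hj)
          have : w * ζ ^ j = ζ ^ i := by
            rw [hw, mul_assoc, ← mul_pow, hconj, one_pow, mul_one]
          rw [← this, h1, one_mul]
        have hwn : w ^ n = 1 := by
          rw [hw, mul_pow, ← pow_mul, mul_comm i, pow_mul, hζn, one_pow, one_mul, ← pow_mul, mul_comm j,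
            pow_mul, ← map_pow, hζn, map_one, one_pow]
        have := mul_geom_sum w n
        rw [hwn, sub_self] at this
        rcases mul_eq_zero.1 this with h1 | h1
        · exact absurd (sub_eq_zero.1 h1) hw1
        · exact h1
    calc ∑ k ∈ Finset.range n, ((‖Polynomial.aeval (ζ ^ k) P‖ ^ 2 : ℝ) : ℂ)
        = ∑ k ∈ Finset.range n, ∑ i ∈ Finset.range n, ∑ j ∈ Finset.range n,
          (P.coeff i : ℂ) * (P.coeff j : ℂ) * (ζ ^ i * ((starRingEnd ℂ) ζ) ^ j) ^ k :=
          Finset.sum_congr rfl fun k _ => e1 k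
      _ = ∑ i ∈ Finset.range n, ∑ k ∈ Finset.range n, ∑ j ∈ Finset.range n,
          (P.coeff i : ℂ) * (P.coeff j : ℂ) * (ζ ^ i * ((starRingEnd ℂ) ζ) ^ j) ^ k :=
          Finset.sum_comm
      _ = ∑ i ∈ Finset.range n, ∑ j ∈ Finset.range n, ∑ k ∈ Finset.range n,
          (P.coeff i : ℂ) * (P.coeff j : ℂ) * (ζ ^ i * ((starRingEnd ℂ) ζ) ^ j) ^ k :=
          Finset.sum_congr rfl fun i _ => Finset.sum_comm
      _ = ∑ i ∈ Finset.range n, ∑ j ∈ Finset.range n,
          (P.coeff i : ℂ) * (P.coeff j : ℂ) * (if i = j then (n : ℂ) else 0) := by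
          refine Finset.sum_congr rfl fun i hi => Finset.sum_congr rfl fun j hj => ?_
          rw [← Finset.mul_sum, e2 i hi j hj]
      _ = ∑ i ∈ Finset.range n, (P.coeff i : ℂ) * (P.coeff i : ℂ) * n := by
          refine Finset.sum_congr rfl fun i hi => ?_
          rw [Finset.sum_eq_single i]
          · rw [if_pos rfl]
          · intro j _ hj
            rw [if_neg (Ne.symm hj), mul_zero]
          · intro hi'; exact absurd hi hi'
      _ = ((n * ∑ i ∈ Finset.range n, (P.coeff i) ^ 2 : ℤ) : ℂ) := by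
          push_cast
          rw [Finset.mul_sum]
          refine Finset.sum_congr rfl fun i _ => ?_
          ring
  have hpar' : ∑ k ∈ Finset.range n, ‖Polynomial.aeval (ζ ^ k) P‖ ^ 2 =
      ((n * ∑ i ∈ Finset.range n, (P.coeff i) ^ 2 : ℤ) : ℝ) := by
    exact_mod_cast hpar
  have hsq := PO1_sq P h0 h
  by_contra hcon
  push Not at hcon
  have h1 : ∀ k ∈ Finset.range n, ‖Polynomial.aeval (ζ ^ k) P‖ ^ 2 < 2 := by
    intro k _
    exact hcon _ (by rw [norm_pow, hζ1, one_pow])
  have h2 : ∑ k ∈ Finset.range n, ‖Polynomial.aeval (ζ ^ k) P‖ ^ 2 < ∑ _k ∈ Finset.range n, (2 : ℝ) :=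
    Finset.sum_lt_sum_of_nonempty (Finset.nonempty_range_iff.2 hn0) h1
  rw [hpar', Finset.sum_const, Finset.card_range, nsmul_eq_mul] at h2
  have h3 : ((n * ∑ i ∈ Finset.range n, (P.coeff i) ^ 2 : ℤ) : ℝ) =
      (n : ℝ) * ((∑ i ∈ Finset.range n, (P.coeff i) ^ 2 : ℤ) : ℝ) := by push_cast; ring
  rw [h3] at h2
  have h4 : (2 : ℝ) ≤ ((∑ i ∈ Finset.range n, (P.coeff i) ^ 2 : ℤ) : ℝ) := by exact_mod_cast hsq
  have h5 : (0 : ℝ) < n := by positivity
  nlinarith

/-- module PO1 -/
theorem PO1 : PO1_stmt := by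
  intro P h0 h m hm
  obtain ⟨z, hz, hPz⟩ := PO1_root P h0 h
  set Q := P ^ (2 * m) with hQ
  set N := 2 * m * P.natDegree + 1 with hN
  have hdeg : Q.natDegree < N := by
    have : Q.natDegree ≤ 2 * m * P.natDegree := Polynomial.natDegree_pow_le
    omega
  have h1 : (2 : ℝ) ^ m ≤ ‖Polynomial.aeval z Q‖ := by
    rw [hQ, map_pow, norm_pow, pow_mul]
    exact pow_le_pow_left₀ (by norm_num) hPz m
  have h2 : ‖Polynomial.aeval z Q‖ ≤ ∑ d ∈ Finset.range N, |(Q.coeff d : ℝ)| := by
    rw [Polynomial.aeval_eq_sum_range' hdeg]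
    refine (norm_sum_le _ _).trans (Finset.sum_le_sum fun d _ => ?_)
    rw [zsmul_eq_mul, norm_mul, norm_pow, hz, one_pow, mul_one]
    simp
  have h3 : 0 ≤ ∑ d ∈ Finset.range N, Q.coeff d := by
    have e : Q.eval 1 = ∑ d ∈ Finset.range N, Q.coeff d := by
      rw [Polynomial.eval_eq_sum_range' hdeg]
      simp
    rw [← e, hQ, Polynomial.eval_pow, pow_mul]
    positivity
  have h4 : (2 : ℤ) ^ m ≤ ∑ d ∈ Finset.range N, |Q.coeff d| := by
    have := h1.trans h2
    exact_mod_cast this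
  by_contra hcon
  push Not at hcon
  have h5 : ∀ d ∈ Finset.range N, (N : ℤ) * (|Q.coeff d| + Q.coeff d) < 2 ^ m := by
    intro d _
    have h6 := hcon d
    have h7 : (N : ℤ) = 2 * m * P.natDegree + 1 := by rw [hN]; push_cast; ring
    rw [← h7] at h6
    have h8 : (2 : ℤ) ^ m = 2 * 2 ^ (m - 1) := by
      rw [← pow_succ']
      congr 1
      omega
    rcases le_or_gt 0 (Q.coeff d) with h9 | h9
    · rw [abs_of_nonneg h9, h8]
      linarith
    · rw [abs_of_neg h9, h8]
      have : (0 : ℤ) < 2 ^ (m - 1) := by positivity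
      linarith
  have hNpos : 0 < N := by omega
  have h6 : ∑ d ∈ Finset.range N, (N : ℤ) * (|Q.coeff d| + Q.coeff d) < ∑ _d ∈ Finset.range N, (2 : ℤ) ^ m :=
    Finset.sum_lt_sum_of_nonempty (Finset.nonempty_range_iff.2 (by omega)) h5
  rw [← Finset.mul_sum, Finset.sum_add_distrib, Finset.sum_const, Finset.card_range, nsmul_eq_mul] at h6
  have h7 : (0 : ℤ) < N := by exact_mod_cast hNpos
  have h8 := lt_of_mul_lt_mul_left h6 h7.le
  linarith

end Pool.Agent.DD
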